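import Mathlib
import Pool.Agent.Helper227.Defs
import Pool.Agent.Helper227.Mach
import Pool.Agent.Helper227.VL
import Pool.Agent.H561R3.LR.Base
import Pool.Agent.H561R3.LR.KG2

set_option autoImplicit false

/-!
The hypothesis of the question, for a given random `B`, holds for every `A` that is low for
randomness, and a weak form of it implies that `A` is K-trivial.
-/

namespace Pool.Agent.Results.MP_de6bcb_lc.LowSandwich

open Pool.Agent.Helper227

/-- `C ≤_LR D`: every set that is Martin-Löf random relative to `D` is Martin-Löf random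
relative to `C`. -/
def LRLe (C D : ℕ → Bool) : Prop := ∀ X : ℕ → Bool, MLR D X → MLR C X

/-- `A` is low for Martin-Löf randomness: every Martin-Löf random set is Martin-Löf random
relative to `A`. -/
def LowForRandom (A : ℕ → Bool) : Prop := ∀ X : ℕ → Bool, MLR (fun _ => false) X → MLR A X

/-- `A ⊕ B ≤_LR B` restricted to the sets that together with `B` compute `A`. -/
def LRLeAbove (A B : ℕ → Bool) : Prop :=
  ∀ Z : ℕ → Bool, TLe A (join B Z) → MLR B Z → MLR (join A B) Z

theorem tLe_false (X : ℕ → Bool) : TLe (fun _ => false) X := by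
  rw [tLe_iff]
  refine ⟨fun x => x.2.2 = false,
    S1.of_prim (Primrec.eq.comp (Primrec.snd.comp Primrec.snd) (Primrec.const false)),
    fun _ _ _ _ _ h => h, fun n b => ?_⟩
  constructor
  · intro h
    exact ⟨0, h.symm⟩
  · rintro ⟨_, h⟩
    exact h.symm

/-- (1) If `B` is Martin-Löf random relative to `A` and every `Z` which is random relative to `B`
and satisfies `A ≤_T B ⊕ Z` is random relative to `A ⊕ B`, then `A` is K-trivial.
(2) So if `A` is not K-trivial and `B` is random relative to `A`, then some `Z` which is random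
relative to `B` and satisfies `A ≤_T B ⊕ Z` is not random relative to `A ⊕ B`.
(3) Let `B` be Martin-Löf random. If `A` is low for Martin-Löf randomness then `B` is random
relative to `A` and `A ⊕ B ≤_LR B`; and if `B` is random relative to `A` and `A ⊕ B ≤_LR B`, then
`A` is K-trivial. -/
theorem result (U : List Bool →. List Bool) (hU : IsUniversal U) :
    (∀ A B : ℕ → Bool, MLR A B → LRLeAbove A B → KTrivial U A) ∧
    (∀ A B : ℕ → Bool, MLR A B → ¬ KTrivial U A →
      ∃ Z : ℕ → Bool, TLe A (join B Z) ∧ MLR B Z ∧ ¬ MLR (join A B) Z) ∧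
    ∀ B : ℕ → Bool, MLR (fun _ => false) B → ∀ A : ℕ → Bool,
      (LowForRandom A → MLR A B ∧ LRLe (join A B) B) ∧
      (MLR A B ∧ LRLe (join A B) B → KTrivial U A) := by
  have key : ∀ A B : ℕ → Bool, MLR A B → LRLeAbove A B → KTrivial U A := by
    intro A B hB hLR
    obtain ⟨Z, hZ, hT⟩ := Pool.Agent.H561R3.LR.kucera_gacs A B
    exact Pool.Agent.H561R3.LR.base_KTrivial hU hT (MLR.join_of hB (hLR Z hT hZ))
  refine ⟨key, fun A B hB hA => ?_, fun B hB A => ⟨fun hA => ⟨hA B hB, fun Z hZ => ?_⟩,
    fun h => key A B h.1 fun Z _ hZ => h.2 Z hZ⟩⟩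
  · by_contra hcon
    push Not at hcon
    exact hA (key A B hB hcon)
  · have h1 : MLR (join (fun _ => false) B) Z :=
      MLR.mono (join_tLe (tLe_false B) (TLe.refl B)) hZ
    exact MLR.right_rel (hA _ (MLR.join_of hB h1))

end Pool.Agent.Results.MP_de6bcb_lc.LowSandwich
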